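import Pool.Graph.R_pool_sql_team_seeded_3997aac3.Results.MP_79dd7e_co.OddPolygons
import Pool.Agent.H53Quad.Scaled
import Pool.Agent.H53Quad.Four
import Pool.Agent.H53Quad.Regular

set_option autoImplicit false

/-!
# Quadrisections of convex polygons with an odd number of sides

* For every `n ≥ 2` some convex `(2n+1)`-gon has more than `2n+1` quadrisections.
* For every `m ≥ 9` (in particular `m = 2n+1`, `n ≥ 4`) and every `ε > 0` there is a convex `m`-gon
  for which **every** pair of perpendicular lines through the origin whose directions are not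
  within `ε` of the two diagonal directions is a quadrisection; the number of its
  quadrisections is the cardinality of the continuum.
* A convex `m`-gon for which **all** pairs of perpendicular lines through some point are
  quadrisections exists if and only if `m` is a positive multiple of `4`; so for odd `m` no point
  has this property.

`line`, `rot`, `IsQuadrisection`, `quadCount`, `IsConvexGon` are the definitions of the library
module `Pool.Graph.R_pool_sql_team_seeded_3997aac3.Q285.Quad.Defs`.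
-/

namespace Pool.Agent.Results.MP_79dd7e_co.MostDirections

open Pool.Agent.Q285.Quad Set

theorem line_neg (p u : ℝ × ℝ) : line p (-u) = line p u := by
  ext x
  constructor
  · rintro ⟨t, rfl⟩
    exact ⟨-t, by simp⟩
  · rintro ⟨t, rfl⟩
    exact ⟨-t, by simp⟩

theorem rot_rot (u : ℝ × ℝ) : rot (rot u) = -u := by
  ext <;> simp [rot]

theorem rot_neg (u : ℝ × ℝ) : rot (-u) = -rot u := by
  ext <;> simp [rot]

theorem all_of_half {R : Set (ℝ × ℝ)} {ρ ε : ℝ} (hε : 0 < ε) (hρ0 : 0 ≤ ρ) (hρ : 1 - ε ≤ ρ ^ 2)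
    (h : ∀ u : ℝ × ℝ, 0 < u.1 → u.2 ≤ ρ * u.1 → -(ρ * u.1) ≤ u.2 →
        IsQuadrisection R {line 0 u, line 0 (rot u)}) (u : ℝ × ℝ) (hu : u ≠ 0)
    (hd : ε * (u.1 ^ 2 + u.2 ^ 2) ≤ |u.1 ^ 2 - u.2 ^ 2|) :
    IsQuadrisection R {line 0 u, line 0 (rot u)} := by
  -- the case `|u.2| ≤ |u.1|`
  have main : ∀ v : ℝ × ℝ, v ≠ 0 → v.2 ^ 2 ≤ v.1 ^ 2 →
      ε * (v.1 ^ 2 + v.2 ^ 2) ≤ v.1 ^ 2 - v.2 ^ 2 →
      IsQuadrisection R {line 0 v, line 0 (rot v)} := by
    intro v hv hle hd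
    have hv1 : v.1 ≠ 0 := by
      intro h0
      rw [h0] at hle
      have h2 : v.2 = 0 := by nlinarith [sq_nonneg v.2]
      exact hv (Prod.ext h0 h2)
    have hsq : v.2 ^ 2 ≤ (ρ * |v.1|) ^ 2 := by
      rw [mul_pow, sq_abs]
      have h3 : 0 ≤ v.1 ^ 2 := sq_nonneg _
      have h4 : 0 ≤ v.2 ^ 2 := sq_nonneg _
      have h5 : (1 - ε) * v.1 ^ 2 ≤ ρ ^ 2 * v.1 ^ 2 := mul_le_mul_of_nonneg_right hρ h3
      have h6 : 0 ≤ ε * v.2 ^ 2 := mul_nonneg hε.le h4
      linarith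
    have habs : |v.2| ≤ ρ * |v.1| :=
      abs_le_of_sq_le_sq hsq (mul_nonneg hρ0 (abs_nonneg _))
    rcases lt_or_gt_of_ne hv1 with hneg | hpos
    · have h1 : |v.1| = -v.1 := abs_of_neg hneg
      rw [h1] at habs
      obtain ⟨h2, h3⟩ := abs_le.1 habs
      have := h (-v) (by simpa using hneg) (by simp; linarith) (by simp; linarith)
      rwa [line_neg, rot_neg, line_neg] at this
    · rw [abs_of_pos hpos] at habs
      obtain ⟨h2, h3⟩ := abs_le.1 habs
      exact h v hpos h3 h2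
  rcases le_total (u.2 ^ 2) (u.1 ^ 2) with hle | hle
  · rw [abs_of_nonneg (by linarith)] at hd
    exact main u hu hle hd
  · rw [abs_of_nonpos (by linarith)] at hd
    have := main (rot u) (rot_ne_zero hu) (by simpa [rot] using hle) (by
      simp only [rot, neg_sq]
      linarith)
    rw [rot_rot, line_neg] at this
    rwa [Set.pair_comm] at this

theorem card_quads {R : Set (ℝ × ℝ)} {ε : ℝ} (hε : ε ≤ 1 / 2)
    (h : ∀ u : ℝ × ℝ, u ≠ 0 → ε * (u.1 ^ 2 + u.2 ^ 2) ≤ |u.1 ^ 2 - u.2 ^ 2| →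
        IsQuadrisection R {line 0 u, line 0 (rot u)}) :
    Cardinal.mk {L | IsQuadrisection R L} = Cardinal.continuum := by
  apply le_antisymm
  · have hsub : {L | IsQuadrisection R L} ⊆
        range (fun q : (ℝ × ℝ) × (ℝ × ℝ) => ({line q.1 q.2, line q.1 (rot q.2)} :
          Set (Set (ℝ × ℝ)))) := by
      rintro L ⟨p, u, -, -, rfl, -⟩
      exact ⟨(p, u), rfl⟩
    refine (Cardinal.mk_le_mk_of_subset hsub).trans (Cardinal.mk_range_le.trans ?_)
    simp [Cardinal.mk_prod, Cardinal.mk_real]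
  · have hinj : InjOn (fun s : ℝ => ({line 0 (dirn 1 s), line 0 (rot (dirn 1 s))} :
        Set (Set (ℝ × ℝ)))) (Ioo (0 : ℝ) (1 / 10)) := by
      intro s hs t ht hst
      exact pair_inj one_pos hs.1 (by linarith [hs.2]) ht.1 (by linarith [ht.2]) hst
    have hmaps : (fun s : ℝ => ({line 0 (dirn 1 s), line 0 (rot (dirn 1 s))} :
        Set (Set (ℝ × ℝ)))) '' (Ioo (0 : ℝ) (1 / 10)) ⊆ {L | IsQuadrisection R L} := by
      rintro _ ⟨s, hs, rfl⟩
      refine h _ (dirn_ne_zero one_pos s) ?_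
      have h0 := hs.1
      have h1 := hs.2
      simp only [dirn]
      have e1 : (1 - s) ^ 2 - s ^ 2 = 1 - 2 * s := by ring
      rw [e1, abs_of_nonneg (by linarith)]
      have h2 : (1 - s) ^ 2 + s ^ 2 ≤ 1 := by nlinarith
      have h3 : 0 ≤ (1 - s) ^ 2 + s ^ 2 := by positivity
      have h4 : ε * ((1 - s) ^ 2 + s ^ 2) ≤ 1 / 2 * ((1 - s) ^ 2 + s ^ 2) :=
        mul_le_mul_of_nonneg_right hε h3
      linarith
    rw [← Cardinal.mk_Ioo_real (show (0 : ℝ) < 1 / 10 by norm_num),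
      ← Cardinal.mk_image_eq_of_injOn _ _ hinj]
    exact Cardinal.mk_le_mk_of_subset hmaps

theorem result :
    (∀ n : ℕ, 2 ≤ n → ∃ R : Set (ℝ × ℝ), IsConvexGon (2 * n + 1) R ∧
      ((2 * n + 1 : ℕ) : ℕ∞) < quadCount R) ∧
    (∀ m : ℕ, 9 ≤ m → ∀ ε : ℝ, 0 < ε → ∃ R : Set (ℝ × ℝ), IsConvexGon m R ∧
      (∀ u : ℝ × ℝ, u ≠ 0 → ε * (u.1 ^ 2 + u.2 ^ 2) ≤ |u.1 ^ 2 - u.2 ^ 2| →
        IsQuadrisection R {line 0 u, line 0 (rot u)}) ∧
      Cardinal.mk {L | IsQuadrisection R L} = Cardinal.continuum) ∧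
    (∀ m : ℕ, (∃ (R : Set (ℝ × ℝ)) (p : ℝ × ℝ), IsConvexGon m R ∧
      ∀ u : ℝ × ℝ, u ≠ 0 → IsQuadrisection R {line p u, line p (rot u)}) ↔ 4 ∣ m ∧ m ≠ 0) := by
  refine ⟨Pool.Agent.Results.MP_79dd7e_co.OddPolygons.result.1, ?_, ?_⟩
  swap
  · intro m
    constructor
    · rintro ⟨R, p, hR, H⟩
      refine ⟨Pool.Agent.H53Quad.four_dvd_of_all hR H, ?_⟩
      rintro rfl
      obtain ⟨V, hcard, rfl, hint, -⟩ := hR
      rw [Finset.card_eq_zero] at hcard
      subst hcard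
      simp at hint
    · rintro ⟨⟨j, rfl⟩, hm⟩
      obtain ⟨R, hR, H⟩ := Pool.Agent.H53Quad.regular (j := j) (by omega)
      exact ⟨R, 0, hR, H⟩
  intro m hm ε hε
  obtain ⟨k, rfl⟩ : ∃ k, m = k + 6 := ⟨m - 6, by omega⟩
  have hk : 3 ≤ k := by omega
  set l : ℝ := min ε (1 / 2) with hl
  have hl0 : 0 < l := lt_min hε (by norm_num)
  have hl1 : l ≤ 1 / 2 := min_le_right _ _
  have hlε : l ≤ ε := min_le_left _ _
  obtain ⟨R, hR, -, hq⟩ := Pool.Agent.H53Quad.most_directions hk hl0 (by linarith)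
  have hall := all_of_half (ρ := 1 - l / 2) hl0 (by linarith) (by nlinarith) hq
  refine ⟨R, hR, ?_, card_quads hl1 hall⟩
  intro u hu hd
  refine hall u hu (le_trans ?_ hd)
  exact mul_le_mul_of_nonneg_right hlε (by positivity)

end Pool.Agent.Results.MP_79dd7e_co.MostDirections
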